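import Pool.Agent.Work.MP_cd0fff_al.Final
import Pool.Agent.Work.MP_cd0fff_al.Dedekind2

/-!
The finite groups whose `2`-local subgroups have odd index.
-/

namespace Pool.Agent.Results.MP_cd0fff_al.Classification

open Pool.Agent.Work.MP_cd0fff_al

/-- Let `G` be a finite group with Sylow `2`-subgroup `S`. The normaliser of every nontrivial
`2`-subgroup of `G` has odd index if and only if one of the following holds.
(1) `S` is abelian.
(2) `S` is isomorphic to `Q₈ × E` with `E` an elementary abelian `2`-group.
(3) `S` is isomorphic to `D₈` or `Q₁₆`, and `G` has no subgroup of index two.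
(4) `S` is isomorphic to `D₈ × C₂` (respectively `Q₁₆ × C₂`), and `G` has a subgroup `H` of index
two, which has no subgroup of index two and whose Sylow `2`-subgroups are isomorphic to `D₈`
(respectively `Q₁₆`).
Here `DihedralGroup 4` is the dihedral group `D₈` of order `8`, and `QuaternionGroup 2` and
`QuaternionGroup 4` are the quaternion group `Q₈` and the generalised quaternion group `Q₁₆`. -/
theorem result (G : Type*) [Group G] [Finite G] (S : Sylow 2 G) :
    (∀ P : Subgroup G, IsPGroup 2 P → P ≠ ⊥ → Odd (Subgroup.normalizer (P : Set G)).index) ↔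
      (∀ s t : S, s * t = t * s) ∨
      (∃ n : ℕ, Nonempty (S ≃* QuaternionGroup 2 × Multiplicative (Fin n → ZMod 2))) ∨
      ((Nonempty (S ≃* DihedralGroup 4) ∨ Nonempty (S ≃* QuaternionGroup 4)) ∧
        ¬ ∃ H : Subgroup G, H.index = 2) ∨
      (Nonempty (S ≃* DihedralGroup 4 × Multiplicative (ZMod 2)) ∧
        ∃ H : Subgroup G, H.index = 2 ∧ (¬ ∃ L : Subgroup H, L.index = 2) ∧
          ∀ T : Sylow 2 H, Nonempty (T ≃* DihedralGroup 4)) ∨
      (Nonempty (S ≃* QuaternionGroup 4 × Multiplicative (ZMod 2)) ∧
        ∃ H : Subgroup G, H.index = 2 ∧ (¬ ∃ L : Subgroup H, L.index = 2) ∧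
          ∀ T : Sylow 2 H, Nonempty (T ≃* QuaternionGroup 4)) := by
  have h := classification S
  rw [dedekind_iff S.isPGroup', or_assoc] at h
  exact h

end Pool.Agent.Results.MP_cd0fff_al.Classification
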