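import Pool.Agent.Work.MP_cd0fff_al.Solvable

/-!
Finite solvable groups, and more generally finite `2`-constrained groups, with property (O).
-/

namespace Pool.Agent.Results.MP_cd0fff_al.Constrained

open Pool.Agent.Work.MP_cd0fff_al

/-- Let `G` be a finite group which is solvable, or more generally `2`-constrained. Then the
normaliser of every nontrivial `2`-subgroup of `G` has odd index if and only if the Sylow
`2`-subgroups of `G` are Dedekind groups, if and only if `G` has a normal subgroup `N` of odd
order such that `G / N` has a normal Dedekind `2`-subgroup of odd index. -/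
theorem result (G : Type*) [Group G] [Finite G] (hG : Group.IsSolvable G ∨ TwoConstrained G) :
    (PropertyO G ↔ ∀ S : Sylow 2 G, IsDedekindSubgroup (S : Subgroup G)) ∧
    (PropertyO G ↔ ∃ (N : Subgroup G) (_ : N.Normal), Odd (Nat.card N) ∧
      ∃ Q : Subgroup (G ⧸ N), Q.Normal ∧ IsPGroup 2 Q ∧ Odd Q.index ∧ IsDedekindSubgroup Q) := by
  have hG' : TwoConstrained G := by
    rcases hG with h | h
    · exact twoConstrained_of_solvable G
    · exact h
  have h2 : PropertyO G → ∃ (N : Subgroup G) (_ : N.Normal), Odd (Nat.card N) ∧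
      ∃ Q : Subgroup (G ⧸ N), Q.Normal ∧ IsPGroup 2 Q ∧ Odd Q.index ∧ IsDedekindSubgroup Q :=
    fun hO => structure_of_constrained hO hG'
  have h3 : (∃ (N : Subgroup G) (_ : N.Normal), Odd (Nat.card N) ∧
      ∃ Q : Subgroup (G ⧸ N), Q.Normal ∧ IsPGroup 2 Q ∧ Odd Q.index ∧ IsDedekindSubgroup Q) →
      ∀ S : Sylow 2 G, IsDedekindSubgroup (S : Subgroup G) := by
    rintro ⟨N, hN, hodd, Q, hQn, hQp, hidx, hded⟩ S
    exact dedekind_of_structure N hodd Q hQn hQp hidx hded S
  exact ⟨⟨fun h => h3 (h2 h), propertyO_of_dedekind⟩,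
    ⟨h2, fun h => propertyO_of_dedekind (h3 h)⟩⟩

end Pool.Agent.Results.MP_cd0fff_al.Constrained
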